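import Pool.Agent.LibPM3.Final
import Pool.Agent.LibPM3.Sanity

/-! Disproof: on the Hitchin component `H_3(S)` of the closed surface of genus 3 with the pressure
metric, every mapping class (in particular every pseudo-Anosov one) has translation length zero. -/

namespace Pool.Agent.Results.MP_e3d6d5_gt.TauZeroGenusThree

open PM3

/-- `τ_3(φ) = 0` for every mapping class `φ` of the closed surface of genus 3. All definitions are in
`Pool.Agent.LibPM3.Defs`. -/
theorem result : ∀ φ ∈ mcg, tau φ = 0 := tau_eq_zero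

/-- sanity: the eight Lickorish twists exist as elements of `mcg` -/
theorem twists_exist : (∀ i, ∃ f ∈ mcg, IsTwX i f) ∧ (∀ i, ∃ f ∈ mcg, IsTwY i f) ∧
    (∃ f ∈ mcg, IsTwC 0 f) ∧ ∃ f ∈ mcg, IsTwC 1 f := by
  refine ⟨fun i => ?_, fun i => ?_, ?_, ?_⟩
  · obtain ⟨f, hf⟩ := exists_twX i
    exact ⟨f, Subgroup.subset_closure (Or.inr (Or.inl ⟨i, hf⟩)), hf⟩
  · obtain ⟨f, hf⟩ := exists_twY i
    exact ⟨f, Subgroup.subset_closure (Or.inr (Or.inr (Or.inl ⟨i, hf⟩))), hf⟩
  · obtain ⟨f, hf⟩ := exists_twC0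
    exact ⟨f, Subgroup.subset_closure (Or.inr (Or.inr (Or.inr (Or.inl hf)))), hf⟩
  · obtain ⟨f, hf⟩ := exists_twC1
    exact ⟨f, Subgroup.subset_closure (Or.inr (Or.inr (Or.inr (Or.inr hf)))), hf⟩

end Pool.Agent.Results.MP_e3d6d5_gt.TauZeroGenusThree
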